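import Mathlib
import Pool.Agent.Lib.MP_74305c_gt.Defs
import Pool.Agent.Lib.MP_74305c_gt.Space
import Pool.Agent.Lib.MP_74305c_gt.NotTP
import Pool.Agent.Lib.MP_74305c_gt.Cover

set_option autoImplicit false
open Set Topology
open Pool.Agent.Lib.MP_74305c_gt

namespace Pool.Agent.Results.MP_74305c_gt.BobWinsNotTotallyParacompact

/-- There is an infinite regular Hausdorff space in which Bob has a winning strategy in the
neighbourhood assignment game but which is not totally paracompact.

The example is the set of all functions with countable support from the cardinal successor of the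
continuum to the natural numbers, with the topology generated by the sets of all functions that
agree with a given one on a proper initial segment. -/
theorem result : ∃ (X : Type) (_ : TopologicalSpace X),
    Infinite X ∧ T3Space X ∧ BobWins X ∧ ¬ TotallyParacompact X := by
  have hne : Nonempty Kap := by
    obtain ⟨b, -⟩ := Kap_H1 ∅ (by simp)
    exact ⟨b⟩
  have hT0 : T0Space (Fn Kap) := t0Space Kap_H1
  have hinf : Infinite (Fn Kap) := by
    obtain ⟨a⟩ := hne
    have h0 : Fn Kap := ⟨fun _ => 0, by simp [Function.support]⟩
    refine Infinite.of_injective (fun n : ℕ => upd h0 a n) fun n m h => ?_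
    have h1 := congrArg (fun f : Fn Kap => f.1 a) h
    simpa only [upd_self] using h1
  exact ⟨Fn Kap, inferInstance, hinf, {}, bobWins Kap_H1 Kap_H2,
    not_totallyParacompact (exists_lt_of_bdd Kap_H1)⟩

end Pool.Agent.Results.MP_74305c_gt.BobWinsNotTotallyParacompact
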